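import Pool.Agent.helper55.ZI.Defs
import Pool.Agent.helper55.ZI.Fin

namespace Pool.Agent.Results.MP_337222_al.SemisimpleUnions

open Pool.Agent.ZI

universe u

/-- The isolation condition for unions of countable chains of semisimple artinian rings, for all
closed sets of the left and of the right Ziegler spectrum. -/
theorem result : ∀ (R : Type u) [Ring R] (S : ℕ → Subring R), SemisimpleChain R S →
    (∀ F, IsolationCondition R F) ∧ (∀ F, IsolationCondition Rᵐᵒᵖ F) :=
  Pool.Agent.ZI.FINAL

end Pool.Agent.Results.MP_337222_al.SemisimpleUnions
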